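import Pool.Agent.Helper67.TRI.ArithS3
import Pool.Agent.Helper42.CV.KDefs

/-!
# CV, block K4: `arith_s` for sequences whose proximity is at least `κ` times the height
-/

set_option autoImplicit false

namespace Pool.Agent.CV

open NumberField Filter Module MvPolynomial Pool.Agent.TRI
open Pool.Agent.SQ hiding lv
open Pool.Agent.Helper64.Vojta (Pl nv sn above)
open Pool.Agent.V2
open Pool.Agent.Chart (fld dg crd hgt val lam)

universe u

private theorem exists_above_t {k : Type u} [Field k] [NumberField k] (L : Type u) [Field L] [NumberField L] [Algebra k L]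
    (v : Pl k) : ∃ w, w ∈ above L v := by
  by_contra hcon
  push Not at hcon
  have h1 := Pool.Agent.Helper52.Vojta.sum_ldeg (L' := L) v
  rw [Finset.sum_eq_zero fun w hw => absurd hw (hcon w)] at h1
  have h2 : FiniteDimensional k L := FiniteDimensional.right ℚ k L
  have h3 : 0 < finrank k L := finrank_pos
  omega

/-- a linear form as a polynomial -/
private noncomputable def lin_t {k : Type u} [Field k] {N : ℕ} (l : Fin N → k) : MvPolynomial (Fin N) k :=
  ∑ j, C (l j) * X j

private theorem aeval_lin_t {k : Type u} [Field k] {N : ℕ} (l : Fin N → k) {L : Type*} [Field L] [Algebra k L] (x : Fin N → L) :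
    aeval x (lin_t l) = lvg l x := by
  simp [lin_t, lvg]

private theorem lamP_lin_t {k : Type u} [Field k] [NumberField k] {N : ℕ} (l : Fin N → k) (ν : Pl k)
    (x : Fin N → AlgebraicClosure k) : lamP 1 (lin_t l) ν x = lam l ν x := by
  unfold lamP lam
  rw [aeval_lin_t]
  simp only [Nat.cast_one, one_mul]
  rfl

private theorem hgt_nonneg_t {k : Type u} [Field k] [NumberField k] {N : ℕ} (x : Fin N → AlgebraicClosure k) : 0 ≤ hgt x := by
  unfold hgt
  exact div_nonneg (Height.logHeight_nonneg _) (Nat.cast_nonneg _)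

/-- the value of a polynomial at the point with coordinates in the Galois closure -/
private theorem coe_aeval_t {k : Type u} [Field k] [NumberField k] {N s : ℕ} (x : Fin (N + 1) → AlgebraicClosure k)
    (y : Fin (N + 1) → gal x) (hy : ∀ j, (y j : AlgebraicClosure k) = x j) (b : Fin s → k)
    (P : MvPolynomial (Fin s ⊕ Fin (N + 1)) k) :
    aeval (Sum.elim (fun i => algebraMap k (gal x) (b i)) y) P = 0 ↔
      aeval (Sum.elim (fun i => algebraMap k (AlgebraicClosure k) (b i)) x) P = 0 := by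
  have h1 := MvPolynomial.comp_aeval_apply (f := Sum.elim (fun i => algebraMap k (gal x) (b i)) y) (gal x).val P
  have h2 : (fun p => (gal x).val (Sum.elim (fun i => algebraMap k (gal x) (b i)) y p)) =
      Sum.elim (fun i => algebraMap k (AlgebraicClosure k) (b i)) x := by
    funext p
    rcases p with i | j
    · rfl
    · exact hy j
  rw [h2] at h1
  rw [← h1]
  exact ZeroMemClass.coe_eq_zero.symm

theorem arith_k {k : Type u} [Field k] [NumberField k] {N q r : ℕ} {κ : ℝ} (hκ : 0 < κ) (S : Finset (Pl k))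
    (l : ℕ → Fin q → Fin (N + 1) → k) (x : ℕ → Fin (N + 1) → AlgebraicClosure k) (hb : BadK κ r S l x) :
    ∃ (φ : ℕ → ℕ) (k' E : Type u) (_ : Field k') (_ : Field E) (_ : Algebra k k') (_ : Algebra k' E) (_ : Algebra k E)
      (_ : IsScalarTower k k' E) (γ : (ℕ → k) → k') (ξ : Fin (N + 1) → E) (r' : ℕ) (A : Type u) (_ : Fintype A) (ω : A → E → ℝ)
      (c : A → ℝ) (h : ℝ), StrictMono φ ∧ r' ≤ r ∧ (∃ j, ξ j = 1) ∧ IntermediateField.adjoin k' (Set.range ξ) = ⊤ ∧
      (∃ j, Transcendental k' (ξ j)) ∧ (∀ i j, SlowS (x ∘ φ) fun a => l (φ a) i j) ∧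
      (∀ z : k', ∃ b, SlowS (x ∘ φ) b ∧ γ b = z) ∧
      (∀ (s : ℕ) (b : Fin s → ℕ → k), (∀ i, SlowS (x ∘ φ) (b i)) → ∀ F : MvPolynomial (Fin s ⊕ Fin (N + 1)) k,
        aeval (Sum.elim (fun i => algebraMap k' E (γ (b i))) ξ) F = 0 ↔
          ∀ᶠ a in (hyperfilter ℕ : Filter ℕ), aeval (Sum.elim (fun i => algebraMap k (AlgebraicClosure k) (b i a)) (x (φ a))) F = 0) ∧
      Dat (Submodule.span k' (Set.range ξ)) ω c r' h ∧
      (∀ i, lv (fun j => γ fun a => l (φ a) i j) ξ ≠ 0) ∧
      κ * h ≤ ∑ i, ∑ α, (ω α (lv (fun j => γ fun a => l (φ a) i j) ξ) + c α) := by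
  classical
  obtain ⟨h1, ⟨t, ht0, ht⟩, hr, hout, hbig⟩ := hb
  choose w hw using fun a => fun v : Pl k => exists_above_t (fld (x a)) v
  obtain ⟨G, gG, fG, Hs, -, -, -, φ, hφ, -, hHd, -, y, M, s, hy, hQ, hH, hHy, -, -, hlP, -⟩ :=
    exists_seq_w (T := Unit) x h1 hr w hw S (fun _ => ())
  set c : ℝ := (Fintype.card G : ℝ) with hc
  have hc0 : 0 < c := by
    rw [hc]
    exact_mod_cast Fintype.card_pos
  have hφa : ∀ a, a ≤ φ a := fun a => hφ.le_apply
  have hy1 : ∀ a, ∃ j, y a j = 1 := by
    intro a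
    obtain ⟨j, hj⟩ := h1 (φ a)
    refine ⟨j, Subtype.ext ?_⟩
    rw [hy a j, hj]
    rfl
  -- the index
  have hHs0 : 0 < Nat.card Hs := Nat.card_pos
  have hHi : Nat.card Hs * Hs.index = Fintype.card G := by
    rw [Subgroup.card_mul_index, Nat.card_eq_fintype_card]
  have hr'r : Hs.index ≤ r := by
    have h2 : dg (x (φ 0)) = Hs.index := Nat.eq_of_mul_eq_mul_left hHs0 ((hHd 0).trans hHi.symm)
    rw [← h2]
    exact hr _
  have hr'0 : 0 < Hs.index := by
    rcases Nat.eq_zero_or_pos Hs.index with h | h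
    · rw [h, mul_zero] at hHi
      exact absurd hHi.symm Fintype.card_ne_zero
    · exact h
  -- the forms
  set lr : ℕ → Fin q → Fin (N + 1) → k := fun a i j => (t i)⁻¹ * l (φ a) i j with hlr
  have hlr1 : ∀ a i, ∃ j, lr a i j = 1 := by
    intro a i
    obtain ⟨j, hj⟩ := ht (φ a) i
    exact ⟨j, by rw [hlr]; simp only; rw [hj, inv_mul_cancel₀ (ht0 i)]⟩
  have hhr : ∀ a i, Height.logHeight (lr a i) = Height.logHeight (l (φ a) i) := by
    intro a i
    exact Height.logHeight_smul_eq_logHeight (l (φ a) i) (inv_ne_zero (ht0 i))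
  have hlvr : ∀ a i, lvg (lr a i) (y a) = algebraMap k _ (t i)⁻¹ * lvg (l (φ a) i) (y a) := by
    intro a i
    simp only [lvg, hlr, Finset.mul_sum, map_mul, mul_assoc]
  have hlv0 : ∀ a i, lvg (l (φ a) i) (y a) ≠ 0 := by
    intro a i h
    apply hout (φ a) i
    have h2 := (coe_aeval_t (s := 0) (x (φ a)) (y a) (hy a) Fin.elim0 (MvPolynomial.rename Sum.inr (lin_t (l (φ a) i)))).1 (by
      rw [aeval_rename]
      show aeval (y a) _ = 0
      rw [aeval_lin_t]
      exact h)
    rw [aeval_rename] at h2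
    have h3 : aeval (x (φ a)) (lin_t (l (φ a) i)) = 0 := h2
    apply Subtype.ext
    show ((val (l (φ a) i) (x (φ a)) : fld (x (φ a))) : AlgebraicClosure k) = 0
    have h4 : ((aeval (crd (x (φ a))) (lin_t (l (φ a) i)) : fld (x (φ a))) : AlgebraicClosure k) =
        aeval (x (φ a)) (lin_t (l (φ a) i)) :=
      MvPolynomial.comp_aeval_apply (f := crd (x (φ a))) (fld (x (φ a))).val (lin_t (l (φ a) i))
    rw [h3, aeval_lin_t] at h4
    exact h4
  have hlvr0 : ∀ a i, lvg (lr a i) (y a) ≠ 0 := by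
    intro a i
    rw [hlvr a i]
    exact mul_ne_zero ((map_ne_zero _).2 (inv_ne_zero (ht0 i))) (hlv0 a i)
  -- the local contributions
  set Z : ℕ → ℝ := fun a => ∑ ν ∈ S, ∑ i, ∑ g, (Real.log (mxn (M a ν) fun j => s a g (y a j)) -
    Real.log (M a ν (s a g (lvg (l (φ a) i) (y a))))) with hZ
  have hW : ∀ a, c * ∑ ν ∈ S, ∑ i, lam (l (φ a) i) ν (x (φ a)) = Z a := by
    intro a
    rw [hZ, Finset.mul_sum]
    refine Finset.sum_congr rfl fun ν _ => ?_
    rw [Finset.mul_sum]
    refine Finset.sum_congr rfl fun i _ => ?_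
    have h2 := hlP a ν 1 (lin_t (l (φ a) i)) (by
      rw [aeval_lin_t]
      exact hout (φ a) i)
    rw [lamP_lin_t, aeval_lin_t] at h2
    rw [hc, h2]
    refine Finset.sum_congr rfl fun g _ => ?_
    rw [Nat.cast_one, one_mul]
  -- Liouville
  obtain ⟨C0, hC0, hLi⟩ := liou67.{u} G k N
  set T : ℕ → ℝ := fun a => ∑ i, Height.logHeight (lr a i) with hT
  have hT0 : ∀ a, 0 ≤ T a := fun a => Finset.sum_nonneg fun i _ => Height.logHeight_nonneg _
  have hTi : ∀ a i, Height.logHeight (lr a i) ≤ T a := fun a i =>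
    Finset.single_le_sum (f := fun i => Height.logHeight (lr a i)) (fun i _ => Height.logHeight_nonneg _) (Finset.mem_univ i)
  set Ha : ℕ → ℝ := fun a => Hg (s a) (M a) (y a) with hHa
  have hHc : ∀ a, Ha a = c * hgt (x (φ a)) := fun a => (hH a).symm
  have hH0 : ∀ a, 0 ≤ Ha a := by
    intro a
    rw [hHc]
    exact mul_nonneg hc0.le (hgt_nonneg_t _)
  set K1 : ℝ := ∑ i, (C0 + c * ∑ ν ∈ S, |Real.log (nv ν (t i)⁻¹)|) with hK1
  have hK10 : 0 ≤ K1 := Finset.sum_nonneg fun i _ =>
    add_nonneg hC0 (mul_nonneg hc0.le (Finset.sum_nonneg fun ν _ => abs_nonneg _))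
  have hup : ∀ a, Z a ≤ q * Ha a + c * T a + K1 := by
    intro a
    have h2 : ∀ i, ∑ ν ∈ S, ∑ g, (Real.log (mxn (M a ν) fun j => s a g (y a j)) -
        Real.log (M a ν (s a g (lvg (l (φ a) i) (y a))))) ≤
        Ha a + c * Height.logHeight (lr a i) + (C0 + c * ∑ ν ∈ S, |Real.log (nv ν (t i)⁻¹)|) := by
      intro i
      have h3 := hLi _ (s a) (M a) (hQ a) (lr a i) (hlr1 a i) (y a) (hy1 a) (hlvr0 a i) S
      have h4 : ∀ ν ∈ S, ∑ g, (Real.log (mxn (M a ν) fun j => s a g (y a j)) -
          Real.log (M a ν (s a g (lvg (l (φ a) i) (y a))))) ≤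
          (∑ g, (Real.log (sn ν (lr a i)) + Real.log (mxn (M a ν) fun j => s a g (y a j)) -
            Real.log (M a ν (s a g (lvg (lr a i) (y a)))))) + c * |Real.log (nv ν (t i)⁻¹)| := by
        intro ν _
        have h5 : c * |Real.log (nv ν (t i)⁻¹)| = ∑ g : G, |Real.log (nv ν (t i)⁻¹)| := by
          rw [Finset.sum_const, Finset.card_univ, nsmul_eq_mul]
        rw [h5, ← Finset.sum_add_distrib]
        refine Finset.sum_le_sum fun g _ => ?_
        have h6 : Real.log (M a ν (s a g (lvg (lr a i) (y a)))) =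
            Real.log (nv ν (t i)⁻¹) + Real.log (M a ν (s a g (lvg (l (φ a) i) (y a)))) := by
          rw [hlvr a i, map_mul, AlgEquiv.commutes, (hQ a).mul, (hQ a).ext,
            Real.log_mul (Pool.Agent.Helper64.Vojta.nv_pos ν (inv_ne_zero (ht0 i))).ne'
              ((hQ a).pos ν _ (by simpa using hlv0 a i)).ne']
        have h7 : 0 ≤ Real.log (sn ν (lr a i)) := Real.log_nonneg (sn_one67 (hlr1 a i) ν)
        have h8 := le_abs_self (Real.log (nv ν (t i)⁻¹))
        rw [h6]
        linarith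
      have h5 := Finset.sum_le_sum h4
      rw [Finset.sum_add_distrib, ← Finset.mul_sum] at h5
      have h6 : (Fintype.card G : ℝ) * Height.logHeight (lr a i) = c * Height.logHeight (lr a i) := rfl
      linarith
    rw [hZ]
    simp only
    rw [Finset.sum_comm]
    refine (Finset.sum_le_sum fun i _ => h2 i).trans (le_of_eq ?_)
    rw [Finset.sum_add_distrib, Finset.sum_add_distrib, Finset.sum_const, Finset.card_univ, Fintype.card_fin, nsmul_eq_mul,
      ← Finset.mul_sum]
  have hlow : ∀ a, κ * Ha a + c * (φ a * (1 + T a)) < Z a := by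
    intro a
    rw [← hW a]
    have h2 := mul_lt_mul_of_pos_left (hbig (φ a)) hc0
    have h3 : ∑ i, Height.logHeight (l (φ a) i) = T a := Finset.sum_congr rfl fun i _ => (hhr a i).symm
    rw [h3] at h2
    refine lt_of_eq_of_lt ?_ h2
    rw [hHc]
    ring
  have hkey : ∀ a : ℕ, c * (((a : ℝ) - 1) * (1 + T a)) ≤ (q + 1) * Ha a + K1 := by
    intro a
    have h2 := (hlow a).le.trans (hup a)
    have h3 : 0 ≤ κ * Ha a := mul_nonneg hκ.le (hH0 a)
    have h4 : (a : ℝ) ≤ φ a := by exact_mod_cast hφa a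
    have h5 : c * ((a : ℝ) * (1 + T a)) ≤ c * (φ a * (1 + T a)) :=
      mul_le_mul_of_nonneg_left (mul_le_mul_of_nonneg_right h4 (by linarith [hT0 a])) hc0.le
    have h6 : c * (((a : ℝ) - 1) * (1 + T a)) = c * ((a : ℝ) * (1 + T a)) - c - c * T a := by ring
    have h7 : ((q : ℝ) + 1) * Ha a = q * Ha a + Ha a := by ring
    rw [h7]
    linarith [hH0 a]
  have hq1 : (0 : ℝ) < (q : ℝ) + 1 := by positivity
  have hH1 : Tendsto Ha atTop atTop := by
    have h2 : ∀ᶠ a : ℕ in atTop, (q + 1 : ℝ)⁻¹ * (c * a - (c + K1)) ≤ Ha a := by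
      filter_upwards [eventually_ge_atTop 1] with a h9
      have h3 := hkey a
      have h10 : (0 : ℝ) ≤ (a : ℝ) - 1 := by
        have : (1 : ℝ) ≤ a := by exact_mod_cast h9
        linarith
      have h11 : 0 ≤ c * (((a : ℝ) - 1) * T a) := mul_nonneg hc0.le (mul_nonneg h10 (hT0 a))
      have h12 : c * (((a : ℝ) - 1) * (1 + T a)) = c * a - c + c * (((a : ℝ) - 1) * T a) := by ring
      rw [inv_mul_le_iff₀ hq1]
      linarith
    refine tendsto_atTop_mono' _ h2 ?_
    refine Tendsto.const_mul_atTop (inv_pos.2 hq1) ?_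
    exact tendsto_atTop_add_const_right _ _ (tendsto_natCast_atTop_atTop.const_mul_atTop hc0)
  have hTslow : ∀ η : ℝ, 0 < η → ∀ᶠ a in atTop, T a ≤ η * Ha a := by
    intro η hη
    have h2 : Tendsto (fun a : ℕ => c * η * ((a : ℝ) - 1)) atTop atTop :=
      (tendsto_atTop_add_const_right _ _ tendsto_natCast_atTop_atTop).const_mul_atTop (mul_pos hc0 hη)
    filter_upwards [h2.eventually_ge_atTop (q + 2), hH1.eventually_ge_atTop K1, eventually_gt_atTop 1] with a h3 h4 h5
    have h6 : (0 : ℝ) < (a : ℝ) - 1 := by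
      have : (1 : ℝ) < a := by exact_mod_cast h5
      linarith
    have h7 := hkey a
    have h8 : c * (((a : ℝ) - 1) * (1 + T a)) = c * ((a : ℝ) - 1) + c * ((a : ℝ) - 1) * T a := by ring
    have h9 : 0 < c * ((a : ℝ) - 1) := mul_pos hc0 h6
    have h11 : (q + 2) * Ha a ≤ c * η * ((a : ℝ) - 1) * Ha a := mul_le_mul_of_nonneg_right h3 (hH0 a)
    have h12 : c * ((a : ℝ) - 1) * T a ≤ c * ((a : ℝ) - 1) * (η * Ha a) := by
      have h13 : c * η * ((a : ℝ) - 1) * Ha a = c * ((a : ℝ) - 1) * (η * Ha a) := by ring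
      have h14 : ((q : ℝ) + 2) * Ha a = (q + 1) * Ha a + Ha a := by ring
      linarith
    exact le_of_mul_le_mul_left h12 h9
  -- the data
  let D : SqG k G :=
    { U := hyperfilter ℕ
      L := fun a => gal (x (φ a))
      fL := fun a => inferInstance
      aL := fun a => inferInstance
      s := s
      N := M
      qs := hQ
      H := Ha
      H1 := hH1.mono_left Nat.hyperfilter_le_atTop }
  let y' : ∀ a, Fin (N + 1) → D.L a := y
  have hPt : Ptg D y' := ⟨hy1, fun a => rfl⟩
  have hltop : (D.U : Filter ℕ) ≤ atTop := Nat.hyperfilter_le_atTop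
  obtain ⟨F⟩ := ger_g D
  obtain ⟨ξ, hξ⟩ := exists_xig F y' hPt
  obtain ⟨ρ, hρ⟩ := exists_rep' Hs
  -- slow sequences
  have hslow : ∀ b : ℕ → k, SlowS (x ∘ φ) b ↔ SlD D b := by
    intro b
    unfold SlowS SlD SlowG
    refine forall_congr' fun η => forall_congr' fun hη => eventually_congr (Eventually.of_forall fun a => ?_)
    rw [htg_const67 (D.qs a)]
    show _ ↔ c * _ ≤ η * Ha a
    rw [hHc a, show η * (c * hgt (x (φ a))) = c * (η * hgt (x (φ a))) by ring, mul_le_mul_iff_right₀ hc0]
    rfl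
  have hls : ∀ i j, SlowS (x ∘ φ) fun a => l (φ a) i j := by
    intro i j η hη
    have h2 : Tendsto (fun a => hgt (x (φ a))) atTop atTop := by
      have h3 := hH1.const_mul_atTop (inv_pos.2 hc0)
      refine h3.congr fun a => ?_
      rw [hHc, ← mul_assoc, inv_mul_cancel₀ hc0.ne', one_mul]
    filter_upwards [hltop (hTslow (η / (2 * c)) (by positivity)),
      hltop (h2.eventually_ge_atTop (Height.logHeight₁ (t i) / (η / 2)))] with a h3 h4
    rw [div_le_iff₀ (by positivity)] at h4
    have h5 : l (φ a) i j = t i * lr a i j := by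
      rw [hlr]
      simp only
      rw [← mul_assoc, mul_inv_cancel₀ (ht0 i), one_mul]
    have h6 := Height.logHeight₁_mul_le (t i) (lr a i j)
    rw [← h5] at h6
    have h7 := (lh1_le67 (hlr1 a i) j).trans ((hTi a i).trans h3)
    rw [hHc a] at h7
    have h8 : η / (2 * c) * (c * hgt (x (φ a))) = η / 2 * hgt (x (φ a)) := by field_simp
    rw [h8] at h7
    show _ ≤ η * hgt (x (φ a))
    linarith
  -- the field
  have hzE : ∀ z : IntermediateField.adjoin (slk F) (Set.range ξ), z = 0 ↔ (z : F.K) = 0 := fun z =>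
    ZeroMemClass.coe_eq_zero.symm
  let γ : (ℕ → k) → slk F := gm F
  have hγ : ∀ b, SlowS (x ∘ φ) b → ∀ᶠ a in (D.U : Filter ℕ), F.rp (γ b : F.K) a = algebraMap k (D.L a) (b a) :=
    fun b hb => gm_rp F b ((hslow b).1 hb)
  have hlE : ∀ i, ((lv (fun j => γ fun a => l (φ a) i j) (crE (k := slk F) ξ) :
      IntermediateField.adjoin (slk F) (Set.range ξ)) : F.K) = ∑ j, (γ fun a => l (φ a) i j : F.K) * ξ j := by
    intro i
    unfold lv
    rw [AddSubmonoidClass.coe_finsetSum]
    rfl
  have hlrp : ∀ i, ∀ᶠ a in (D.U : Filter ℕ), F.rp (∑ j, (γ fun a => l (φ a) i j : F.K) * ξ j) a = lvg (l (φ a) i) (y' a) := by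
    intro i
    have h3 := rp_aeval_s F (Sum.elim (fun j => (γ fun a => l (φ a) i j : F.K)) ξ)
      (fun a => Sum.elim (fun j => algebraMap k (D.L a) (l (φ a) i j)) (y' a))
      (by rintro (j | j); exacts [hγ _ (hls i j), hξ j]) (∑ j, X (Sum.inl j) * X (Sum.inr j))
    filter_upwards [h3] with a h5
    simp only [map_sum, map_mul, aeval_X, Sum.elim_inl, Sum.elim_inr] at h5
    exact h5
  have hl0 : ∀ i, (∑ j, (γ fun a => l (φ a) i j : F.K) * ξ j) ≠ 0 := by
    intro i h
    obtain ⟨a, h2, h3⟩ := ((hlrp i).and (rp_zero' F)).exists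
    rw [h] at h2
    exact hlv0 a i (h2.symm.trans h3)
  have hDat := dat_s F y' ξ hξ hPt Hs hHy hr'0 hHi ρ hρ S
  have hcs : (0 : ℝ) < Nat.card Hs := by exact_mod_cast hHs0
  -- the forms are in the span
  have hlV : ∀ i, lv (fun j => γ fun a => l (φ a) i j) (crE (k := slk F) ξ) ∈
      Submodule.span (slk F) (Set.range (crE (k := slk F) ξ)) := by
    intro i
    unfold lv
    refine Submodule.sum_mem _ fun j _ => ?_
    rw [← Algebra.smul_def]
    exact Submodule.smul_mem _ _ (Submodule.subset_span ⟨j, rfl⟩)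
  have hlE0 : ∀ i, lv (fun j => γ fun a => l (φ a) i j) (crE (k := slk F) ξ) ≠ 0 := by
    intro i h
    apply hl0 i
    rw [← hlE i, h]
    rfl
  -- the second inequality
  have hI2 : κ * (1 / Nat.card Hs : ℝ) ≤ ∑ i, ∑ α : S × Fin Hs.index, (omg F α.1 (F.s (ρ α.2)
      ((lv (fun j => γ fun a => l (φ a) i j) (crE (k := slk F) ξ) : IntermediateField.adjoin (slk F) (Set.range ξ)) : F.K)) +
        cg D y' α.1 (ρ α.2)) := by
    set Q : Fin q → ℝ := fun i => ∑ α : S × Fin Hs.index, (omg F α.1 (F.s (ρ α.2)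
      ((lv (fun j => γ fun a => l (φ a) i j) (crE (k := slk F) ξ) : IntermediateField.adjoin (slk F) (Set.range ξ)) : F.K)) +
        cg D y' α.1 (ρ α.2)) with hQd
    have hQs : κ ≤ ∑ i, Nat.card Hs * Q i := by
      have h2 := tendsto_finsetSum Finset.univ fun (i : Fin q) _ => tendsto_finsetSum S fun v _ =>
        tendsto_finsetSum Finset.univ fun g _ =>
          (cg_tendsto y' hPt v g).add (omg_tendsto F v (F.s g (∑ j, (γ fun a => l (φ a) i j : F.K) * ξ j))
            ((map_ne_zero (F.s g)).2 (hl0 i)))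
      have h3 : ∀ i, ∑ v ∈ S, ∑ g, (cg D y' v g + omg F v (F.s g (∑ j, (γ fun a => l (φ a) i j : F.K) * ξ j))) =
          Nat.card Hs * Q i := by
        intro i
        rw [hQd]
        simp only
        rw [Fintype.sum_prod_type, Finset.sum_coe_sort S fun v => ∑ j, (omg F v (F.s (ρ j)
          ((lv (fun j => γ fun a => l (φ a) i j) (crE (k := slk F) ξ) : IntermediateField.adjoin (slk F) (Set.range ξ)) : F.K)) +
            cg D y' v (ρ j)), Finset.mul_sum]
        refine Finset.sum_congr rfl fun v _ => ?_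
        rw [hlE i]
        rw [← sum_rep' Hs ρ hρ (fun g => omg F v (F.s g (∑ j, (γ fun a => l (φ a) i j : F.K) * ξ j)) + cg D y' v g) ?_]
        · exact Finset.sum_congr rfl fun g _ => add_comm _ _
        · intro h hh g
          have h4 : F.s h (∑ j, (γ fun a => l (φ a) i j : F.K) * ξ j) = ∑ j, (γ fun a => l (φ a) i j : F.K) * ξ j := by
            rw [map_sum]
            refine Finset.sum_congr rfl fun j _ => ?_
            rw [map_mul, (γ fun a => l (φ a) i j).2.1 h]
            congr 1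
            exact fix' F y' ξ Hs hHy hξ h hh _ (IntermediateField.subset_adjoin k _ ⟨j, rfl⟩)
          rw [cg_inv' y' Hs hHy v g h hh, map_mul, AlgEquiv.mul_apply, h4]
      rw [← Finset.sum_congr rfl fun i _ => h3 i]
      refine ge_of_tendsto h2 ?_
      have h6 : ∀ᶠ a in (D.U : Filter ℕ), ∀ i, ∀ g, F.rp (F.s g (∑ j, (γ fun a => l (φ a) i j : F.K) * ξ j)) a =
          s a g (lvg (l (φ a) i) (y' a)) := by
        rw [eventually_all]
        intro i
        rw [eventually_all]
        intro g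
        filter_upwards [F.rp_s g (∑ j, (γ fun a => l (φ a) i j : F.K) * ξ j), hlrp i] with a e1 e2
        rw [e1, e2]
      filter_upwards [posH' D, h6] with a ha h6
      have h7 : ∑ i, ∑ v ∈ S, ∑ g, (Real.log (mxn (D.N a v) fun j => D.s a g (y' a j)) / D.H a +
          -Real.log (D.N a v (F.rp (F.s g (∑ j, (γ fun a => l (φ a) i j : F.K) * ξ j)) a)) / D.H a) = Z a / D.H a := by
        rw [hZ]
        simp only
        rw [Finset.sum_comm, Finset.sum_div]
        refine Finset.sum_congr rfl fun v _ => ?_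
        rw [Finset.sum_div]
        refine Finset.sum_congr rfl fun i _ => ?_
        rw [Finset.sum_div]
        refine Finset.sum_congr rfl fun g _ => ?_
        rw [h6 i g]
        show Real.log (mxn (M a v) fun j => s a g (y a j)) / D.H a + -Real.log (M a v (s a g (lvg (l (φ a) i) (y a)))) / D.H a = _
        ring
      show κ ≤ _
      rw [h7, le_div_iff₀ ha]
      have h8 := (hlow a).le
      have h9 : 0 ≤ c * (φ a * (1 + T a)) := mul_nonneg hc0.le (mul_nonneg (Nat.cast_nonneg _) (by linarith [hT0 a]))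
      show κ * Ha a ≤ Z a
      linarith
    have h4 : (Nat.card Hs : ℝ) * ∑ i, Q i = ∑ i, Nat.card Hs * Q i := Finset.mul_sum _ _ _
    rw [mul_one_div, div_le_iff₀ hcs, mul_comm, h4]
    exact hQs
  refine ⟨φ, slk F, IntermediateField.adjoin (slk F) (Set.range ξ), inferInstance, inferInstance, inferInstance, inferInstance,
    inferInstance, inferInstance, γ, crE ξ, Hs.index, S × Fin Hs.index, inferInstance,
    fun α z => omg F α.1 (F.s (ρ α.2) z), fun α => cg D y' α.1 (ρ α.2), 1 / Nat.card Hs, hφ, hr'r, ?_,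
    crE_adjoin ξ, ?_, hls, ?_, ?_, hDat, hlE0, hI2⟩
  · -- one coordinate is one
    obtain ⟨j, hj⟩ := Ultrafilter.eventually_exists_iff.1 (Eventually.of_forall hy1 : ∀ᶠ a in (D.U : Filter ℕ), ∃ j, y a j = 1)
    refine ⟨j, Subtype.ext (F.rp_inj _ _ ?_)⟩
    have h2 := F.rp_alg 1
    filter_upwards [hj, hξ j, h2] with a e1 e2 e3
    rw [map_one, map_one] at e3
    show F.rp (ξ j) a = F.rp ((1 : IntermediateField.adjoin (slk F) (Set.range ξ)) : F.K) a
    rw [e2]
    exact e1.trans e3.symm
  · -- one coordinate is transcendental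
    by_contra hcon
    push Not at hcon
    have h2 : ∀ j, IsAlgebraic (slk F) (crE (k := slk F) ξ j) := fun j => by
      have h3 := hcon j
      rwa [Transcendental, not_not] at h3
    have h3 : ∀ z : IntermediateField.adjoin (slk F) (Set.range ξ), IsAlgebraic (slk F) z := by
      intro z
      have h4 : z ∈ IntermediateField.adjoin (slk F) (Set.range (crE (k := slk F) ξ)) := by
        rw [crE_adjoin]
        trivial
      induction h4 using IntermediateField.adjoin_induction with
      | mem z hz =>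
        obtain ⟨j, rfl⟩ := hz
        exact h2 j
      | algebraMap c => exact isAlgebraic_algebraMap c
      | add a b _ _ ha hb => exact ha.add hb
      | inv a _ ha => exact ha.inv
      | mul a b _ _ ha hb => exact ha.mul hb
    have h4 := hI2
    rw [Finset.sum_eq_zero] at h4
    · have : (0 : ℝ) < κ * (1 / Nat.card Hs) := by positivity
      linarith
    · intro i _
      refine Finset.sum_eq_zero fun α _ => ?_
      obtain ⟨z, hz, hz0, h5⟩ := hDat.eq α
      have h6 := alg_zero_s (hDat.rv α) hz0 (h3 z)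
      have h7 := alg_zero_s (hDat.rv α) (hlE0 i) (h3 _)
      linarith
  · intro z
    obtain ⟨b, hb, hbz⟩ := gm_surj F z
    exact ⟨b, (hslow b).2 hb, hbz⟩
  · intro n b hb P
    have h2 : aeval (Sum.elim (fun i => algebraMap (slk F) (IntermediateField.adjoin (slk F) (Set.range ξ)) (γ (b i)))
        (crE (k := slk F) ξ)) P = 0 ↔ aeval (Sum.elim (fun i => (γ (b i) : F.K)) ξ) P = 0 := by
      have h3 := MvPolynomial.comp_aeval_apply (f := Sum.elim (fun i => algebraMap (slk F)
        (IntermediateField.adjoin (slk F) (Set.range ξ)) (γ (b i))) (crE (k := slk F) ξ))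
        ((IntermediateField.adjoin (slk F) (Set.range ξ)).val.restrictScalars k) P
      have h4 : (fun p => ((IntermediateField.adjoin (slk F) (Set.range ξ)).val.restrictScalars k)
          (Sum.elim (fun i => algebraMap (slk F) (IntermediateField.adjoin (slk F) (Set.range ξ)) (γ (b i)))
            (crE (k := slk F) ξ) p)) = Sum.elim (fun i => (γ (b i) : F.K)) ξ := by
        funext p
        rcases p with i | j
        · rfl
        · rfl
      rw [h4] at h3
      rw [← h3]
      exact ZeroMemClass.coe_eq_zero.symm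
    rw [h2, aeval_zero_s F _ (fun a => Sum.elim (fun i => algebraMap k (D.L a) (b i a)) (y' a))
      (by rintro (i | j); exacts [hγ _ (hb i), hξ j])]
    refine eventually_congr (Eventually.of_forall fun a => ?_)
    exact coe_aeval_t (x (φ a)) (y a) (hy a) (fun i => b i a) P

end Pool.Agent.CV
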